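import Pool.Agent.H170.FC.Gen
import Pool.Agent.Results.MP_ddb4d7_al.CentralFrattini

set_option autoImplicit false
set_option linter.all false

namespace Pool.Agent.H170.FC

open Subgroup Pool.Agent.Helper218 Pool.Agent.Results.MP_ddb4d7_al.CentralFrattini

open scoped commutatorElement

/-- a nontrivial `q`-th root of unity -/
lemma exists_om {p q k : ℕ} [hp : Fact p.Prime] [hq : Fact q.Prime] {F : Type} [Field F] [Finite F]
    (hF : Nat.card F = p ^ k) (hdvd : q ∣ p ^ k - 1) :
    (∃ om : T q F, om ≠ 1) ∧ Nat.card (T q F) = q := by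
  classical
  haveI : Fintype F := Fintype.ofFinite F
  have h1 : Fintype.card Fˣ = p ^ k - 1 := by
    rw [Fintype.card_units, ← Nat.card_eq_fintype_card, hF]
  obtain ⟨u, hu⟩ := exists_prime_orderOf_dvd_card q (G := Fˣ) (by rw [h1]; exact hdvd)
  have hprim : IsPrimitiveRoot u q := by rw [← hu]; exact IsPrimitiveRoot.orderOf u
  have hprim' : IsPrimitiveRoot (u : F) q := hprim.map_of_injective (f := Units.coeHom F)
    Units.val_injective
  have hcard : Nat.card (T q F) = q := hprim'.card_rootsOfUnity
  refine ⟨⟨⟨u, ?_⟩, ?_⟩, hcard⟩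
  · rw [mem_rootsOfUnity]; exact hprim.pow_eq_one
  · intro h
    have h2 : u = 1 := congrArg Subtype.val h
    rw [h2, orderOf_one] at hu
    exact hq.out.one_lt.ne hu

/-- the coordinate projection of a vector space of dimension `k` onto one of dimension `m < k` -/
lemma exists_mu {p k m : ℕ} [hp : Fact p.Prime] {F : Type} [Field F] [Algebra (ZMod p) F]
    [Module.Finite (ZMod p) F] (hF : Module.finrank (ZMod p) F = k) (hmk : m < k) :
    ∃ mu : F →+ (Fin m → ZMod p), Function.Surjective mu := by
  let b := Module.finBasisOfFinrankEq (ZMod p) F hF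
  refine ⟨((LinearMap.funLeft (ZMod p) (ZMod p) (Fin.castLE hmk.le)).comp
    b.equivFun.toLinearMap).toAddMonoidHom, ?_⟩
  have h1 : Function.Surjective (LinearMap.funLeft (ZMod p) (ZMod p) (Fin.castLE hmk.le)) :=
    LinearMap.funLeft_surjective_of_injective _ _ _ (Fin.castLE_injective _)
  exact h1.comp b.equivFun.surjective

theorem main (p q m : ℕ) (hp : p.Prime) (hq : q.Prime) (hq2 : q ≠ 2) (hpq : p ≠ q) (hm : 1 ≤ m) :
    ∃ X : (G : Type) → [Group G] → Prop, IsFittingClass X ∧
      ∀ k : ℕ, m < k → q ∣ p ^ k - 1 →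
        ∃ (G : Type) (_ : Group G) (_ : Finite G) (Z : Subgroup G) (_ : Z.Normal),
          Nat.card G = q * p ^ (3 * k) ∧ Nat.card Z = p ^ (k - m) ∧
          IsMetanilpotent G ∧ Z ≤ Subgroup.center G ⊓ frattini G ∧ X (G ⧸ Z) ∧ ¬ X G := by
  haveI : Fact p.Prime := ⟨hp⟩
  haveI : Fact q.Prime := ⟨hq⟩
  have hcop : Nat.Coprime p q := (Nat.coprime_primes hp hq).2 hpq
  refine ⟨fun G _ => Cls p q m G, ?_, ?_⟩
  · -- the class is not empty: a suitable field
    have hk0 : m < (q - 1) * m := by
      have h3 : 3 ≤ q := by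
        have := hq.two_le
        omega
      have : 2 ≤ q - 1 := by omega
      nlinarith
    have hdvd : q ∣ p ^ ((q - 1) * m) - 1 := by
      rw [← Nat.modEq_iff_dvd' (Nat.one_le_pow _ _ hp.pos)]
      have h1 : p ^ (q - 1) ≡ 1 [MOD q] := by
        rw [← Nat.totient_prime hq]
        exact Nat.ModEq.pow_totient hcop
      have h2 := h1.pow m
      rw [one_pow, ← pow_mul] at h2
      exact h2.symm
    have hne : (q - 1) * m ≠ 0 := by omega
    obtain ⟨⟨om, hom⟩, _⟩ := exists_om (F := GaloisField p ((q - 1) * m))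
      (GaloisField.card p _ hne) hdvd
    obtain ⟨mu, hmu⟩ := exists_mu (GaloisField.finrank p hne) hk0
    haveI : Nonempty (Fin m) := ⟨⟨0, hm⟩⟩
    have hQ : Cls p q m (B q mu) := B.cls inferInstance hmu hom (by
      rw [Nat.card_fun, Nat.card_zmod, Nat.card_eq_fintype_card, Fintype.card_fin])
    exact
      { nonempty := ⟨_, _, hQ⟩
        finite := fun G _ h => Cls_fin h
        soluble := fun G _ h => Cls_solvable h
        iso := fun G H _ _ ⟨e⟩ h => Cls_iso e h
        normal := fun G _ N hN h => Cls_normal hcop N hN h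
        product := fun G _ _ N₁ N₂ h1 h2 h3 h4 => Cls_sup hcop hq2 N₁ N₂ h1 h2 h3 h4 }
  · intro k hmk hdvd
    have hne : k ≠ 0 := by omega
    set F := GaloisField p k with hFdef
    have hFc : Nat.card F = p ^ k := GaloisField.card p k hne
    obtain ⟨⟨om, hom⟩, hT⟩ := exists_om hFc hdvd
    obtain ⟨mu, hmu⟩ := exists_mu (GaloisField.finrank p hne) hmk
    haveI : Nonempty (Fin m) := ⟨⟨0, hm⟩⟩
    have hCc : Nat.card (Fin m → ZMod p) = p ^ m := by
      rw [Nat.card_fun, Nat.card_zmod, Nat.card_eq_fintype_card, Fintype.card_fin]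
    let lam : F →+ F := AddMonoidHom.id F
    have hlam : Function.Surjective lam := Function.surjective_id
    let quo := B.mapC (q := q) lam mu
    have hquo : Function.Surjective quo := B.mapC_surj lam mu hmu
    have hlam' : Function.Surjective (mu.comp lam) := hmu
    have hQ : Cls p q m (B q (mu.comp lam)) := B.cls inferInstance hlam' hom hCc
    have hG : ¬ Cls p q m (B q lam) := B.not_cls hcop inferInstance hlam hom (by
      rw [hFc]
      intro h
      exact hmk.ne' (Nat.pow_right_injective hp.two_le h))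
    have hcardG : Nat.card (B q lam) = q * p ^ (3 * k) := by
      rw [B.card, hT, hFc]; ring
    have hcardQ : Nat.card (B q (mu.comp lam)) = q * p ^ (2 * k + m) := by
      rw [B.card, hT, hFc, hCc]; ring
    refine ⟨B q lam, inferInstance, inferInstance, quo.ker, inferInstance, hcardG, ?_, ?_, ?_, ?_,
      hG⟩
    · have h1 := quo.ker.card_mul_index
      rw [Subgroup.index_ker, MonoidHom.range_eq_top.2 hquo, Subgroup.card_top, hcardG, hcardQ]
        at h1
      have h2 : p ^ (3 * k) = p ^ (k - m) * p ^ (2 * k + m) := by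
        rw [← pow_add]; congr 1; omega
      rw [h2] at h1
      have h3 : 0 < q * p ^ (2 * k + m) := Nat.mul_pos hq.pos (pow_pos hp.pos _)
      apply Nat.eq_of_mul_eq_mul_right h3
      rw [h1]; ring
    · have hrad := B.rad (q := q) (p := p) (lam := lam) hlam
      haveI hRn : (B.P q lam).Normal := ⟨fun x hx g => hrad.1 g (Subgroup.mem_top _) x hx⟩
      refine ⟨B.P q lam, hRn, ?_, ?_⟩
      · have hRp : IsPGroup p (B.P q lam) := by
          intro x
          obtain ⟨n, hn⟩ := hrad.2.1 x.1 x.2
          exact ⟨n, Subtype.ext (by simpa using hn)⟩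
        exact hRp.isNilpotent
      · have hQ : IsPGroup q (B q lam ⧸ B.P q lam) := by
          intro x
          induction x using QuotientGroup.induction_on with
          | H x =>
            obtain ⟨n, hn⟩ := hrad.2.2 x (Subgroup.mem_top _)
            exact ⟨n, by rw [← QuotientGroup.mk_pow, QuotientGroup.eq_one_iff]; exact hn⟩
        exact hQ.isNilpotent
    · have hform : ∀ x ∈ quo.ker, x = ⟨1, 0, 0, x.c⟩ := by
        intro x hx
        have hx' : quo x = 1 := hx
        have e1 : (quo x).t = 1 := by rw [hx']; rfl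
        have e2 : (quo x).a = 0 := by rw [hx']; rfl
        have e3 : (quo x).b = 0 := by rw [hx']; rfl
        exact B.ext e1 e2 e3 rfl
      have hcen : quo.ker ≤ Subgroup.center (B q lam) := by
        intro x hx
        rw [Subgroup.mem_center_iff, hform x hx]
        intro k
        exact B.cen _ _
      refine le_inf hcen (le_frattini _ hcen ?_)
      intro x hx
      have h1 : x = ⁅(⟨1, 1, 0, 0⟩ : B q lam), ⟨1, 0, x.c, 0⟩⁆ := by
        rw [B.comm_P rfl rfl, hform x hx]
        simp [lam]
      rw [h1]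
      exact Subgroup.commutator_mem_commutator (Subgroup.mem_top _) (Subgroup.mem_top _)
    · exact Cls_iso (QuotientGroup.quotientKerEquivOfSurjective quo hquo).symm hQ

/-- Fermat: the condition of `main` holds for all multiples of `q - 1`. -/
theorem fermat (p q : ℕ) (hp : p.Prime) (hq : q.Prime) (hpq : p ≠ q) (j : ℕ) :
    q ∣ p ^ ((q - 1) * j) - 1 := by
  have hcop : Nat.Coprime p q := (Nat.coprime_primes hp hq).2 hpq
  rw [← Nat.modEq_iff_dvd' (Nat.one_le_pow _ _ hp.pos)]
  have h1 : p ^ (q - 1) ≡ 1 [MOD q] := by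
    rw [← Nat.totient_prime hq]
    exact Nat.ModEq.pow_totient hcop
  have h2 := h1.pow j
  rw [one_pow, ← pow_mul] at h2
  exact h2.symm

end Pool.Agent.H170.FC
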