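import Pool.Agent.Helper218.Lock

/-!
Counterexamples to the closure of Fitting classes under central Frattini extensions, for all
primes `p` and all odd primes `q ≠ p` (the starting repository has `p = 7`, `q = 3`). The classes
`Cls p q m` are those of `Pool.Agent.Helper218`.
-/

set_option autoImplicit false
set_option linter.all false

namespace Pool.Agent.H170.FC

open Subgroup Pool.Agent.Helper218

open scoped commutatorElement

/-- the `q`-th roots of unity -/
abbrev T (q : ℕ) (F : Type) [Field F] : Type := ↥(rootsOfUnity q F)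

/-- the inclusion -/
def chi {q : ℕ} {F : Type} [Field F] : T q F →* F :=
  (Units.coeHom F).comp (Subgroup.subtype _)

section T

variable {q : ℕ} {F : Type} [Field F]

lemma chi_inj : Function.Injective (chi : T q F →* F) := by
  intro x y h
  exact Subtype.ext (Units.ext h)

lemma chi_inv (t : T q F) : chi t * chi t⁻¹ = 1 := by
  rw [← map_mul, mul_inv_cancel, map_one]

lemma chi_inv' (t : T q F) : chi t⁻¹ * chi t = 1 := by
  rw [← map_mul, inv_mul_cancel, map_one]

lemma t_pow (t : T q F) : t ^ q = 1 := by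
  have := t.2
  rw [mem_rootsOfUnity] at this
  exact Subtype.ext this

end T

/-- the group `B(q, F, C, lam)` -/
@[ext] structure B (q : ℕ) {F C : Type} [Field F] [AddCommGroup C] (lam : F →+ C) where
  t : T q F
  a : F
  b : F
  c : C

section B

variable {q : ℕ} {F C : Type} [Field F] [AddCommGroup C] {lam : F →+ C}

instance : Mul (B q lam) := ⟨fun x y => ⟨x.t * y.t, x.a + chi x.t * y.a,
  x.b + chi x.t⁻¹ * y.b, x.c + y.c + lam (chi x.t⁻¹ * (x.a * y.b))⟩⟩
instance : One (B q lam) := ⟨⟨1, 0, 0, 0⟩⟩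
instance : Inv (B q lam) := ⟨fun x => ⟨x.t⁻¹, -(chi x.t⁻¹ * x.a), -(chi x.t * x.b),
  -x.c + lam (x.a * x.b)⟩⟩

@[simp] lemma B_mul_t (x y : B q lam) : (x * y).t = x.t * y.t := rfl
@[simp] lemma B_mul_a (x y : B q lam) : (x * y).a = x.a + chi x.t * y.a := rfl
@[simp] lemma B_mul_b (x y : B q lam) : (x * y).b = x.b + chi x.t⁻¹ * y.b := rfl
@[simp] lemma B_mul_c (x y : B q lam) :
  (x * y).c = x.c + y.c + lam (chi x.t⁻¹ * (x.a * y.b)) := rfl
@[simp] lemma B_one_t : (1 : B q lam).t = 1 := rfl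
@[simp] lemma B_one_a : (1 : B q lam).a = 0 := rfl
@[simp] lemma B_one_b : (1 : B q lam).b = 0 := rfl
@[simp] lemma B_one_c : (1 : B q lam).c = 0 := rfl
@[simp] lemma B_inv_t (x : B q lam) : (x⁻¹).t = x.t⁻¹ := rfl
@[simp] lemma B_inv_a (x : B q lam) : (x⁻¹).a = -(chi x.t⁻¹ * x.a) := rfl
@[simp] lemma B_inv_b (x : B q lam) : (x⁻¹).b = -(chi x.t * x.b) := rfl
@[simp] lemma B_inv_c (x : B q lam) : (x⁻¹).c = -x.c + lam (x.a * x.b) := rfl

instance : Group (B q lam) := Group.ofLeftAxioms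
  (by
    intro x y z
    have h1 := chi_inv' x.t
    apply B.ext
    · simp [mul_assoc]
    · simp only [B_mul_t, B_mul_a, map_mul]; ring
    · simp only [B_mul_t, B_mul_b, mul_inv_rev, map_mul]; ring
    · have e : chi (x.t * y.t)⁻¹ * ((x.a + chi x.t * y.a) * z.b) =
          chi x.t⁻¹ * (x.a * (chi y.t⁻¹ * z.b)) + chi y.t⁻¹ * (y.a * z.b) := by
        rw [mul_inv_rev, map_mul]
        linear_combination (chi y.t⁻¹ * y.a * z.b) * h1
      simp only [B_mul_t, B_mul_a, B_mul_b, B_mul_c]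
      rw [e, map_add, mul_add, mul_add, map_add]
      abel)
  (by intro x; apply B.ext <;> simp)
  (by
    intro x
    have h1 := chi_inv x.t
    apply B.ext
    · simp
    · simp
    · simp
    · have e : chi (x⁻¹).t⁻¹ * ((x⁻¹).a * x.b) = -(x.a * x.b) := by
        rw [B_inv_t, B_inv_a, inv_inv]
        linear_combination (-(x.a * x.b)) * h1
      rw [B_mul_c, e, map_neg, B_inv_c, B_one_c]
      abel)

instance [Finite F] [Finite C] : Finite (B q lam) := by
  haveI : Finite Fˣ := inferInstance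
  exact Finite.of_injective (fun x : B q lam => (x.t, x.a, x.b, x.c)) (by
    intro x y h
    simp only [Prod.mk.injEq] at h
    exact B.ext h.1 h.2.1 h.2.2.1 h.2.2.2)

/-- the projection to `T` -/
def B.proj : B q lam →* T q F where
  toFun := B.t
  map_one' := rfl
  map_mul' _ _ := rfl

/-- the normal Sylow `p`-subgroup -/
def B.P (q : ℕ) (lam : F →+ C) : Subgroup (B q lam) := B.proj.ker

lemma B.mem_P {x : B q lam} : x ∈ B.P q lam ↔ x.t = 1 := Iff.rfl

lemma B.comm_P {u v : B q lam} (hu : u ∈ B.P q lam) (hv : v ∈ B.P q lam) :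
    ⁅u, v⁆ = ⟨1, 0, 0, lam (u.a * v.b) - lam (v.a * u.b)⟩ := by
  rw [B.mem_P] at hu hv
  have h1 : u * v = ⟨1, 0, 0, lam (u.a * v.b) - lam (v.a * u.b)⟩ * (v * u) := by
    apply B.ext
    · simp [hu, hv]
    · simp [hu, hv, add_comm]
    · simp [hu, hv, add_comm]
    · simp [hu, hv]; abel
  rw [commutatorElement_def, mul_assoc, h1]
  group

lemma B.cen (c : C) (k : B q lam) : k * ⟨1, 0, 0, c⟩ = ⟨1, 0, 0, c⟩ * k := by
  apply B.ext
  · simp
  · simp
  · simp
  · simp [add_comm]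

lemma B.pow_P {u : B q lam} (hu : u.t = 1) (n : ℕ) : (u ^ n).t = 1 ∧ (u ^ n).a = n • u.a ∧
    (u ^ n).b = n • u.b := by
  induction n with
  | zero => simp
  | succ n ih =>
    rw [pow_succ]
    refine ⟨?_, ?_, ?_⟩
    · simp [ih.1, hu]
    · rw [B_mul_a, ih.2.1, ih.1, map_one, one_mul, succ_nsmul]
    · rw [B_mul_b, ih.2.2, ih.1, inv_one, map_one, one_mul, succ_nsmul]

lemma B.pow_Z (c : C) (n : ℕ) : (⟨1, 0, 0, c⟩ : B q lam) ^ n = ⟨1, 0, 0, n • c⟩ := by
  induction n with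
  | zero => rw [pow_zero, zero_nsmul]; rfl
  | succ n ih =>
    rw [pow_succ, ih]
    apply B.ext
    · simp
    · simp
    · simp
    · simp [succ_nsmul]

lemma B.pow_T (t : T q F) (n : ℕ) : (⟨t, 0, 0, 0⟩ : B q lam) ^ n = ⟨t ^ n, 0, 0, 0⟩ := by
  induction n with
  | zero => rw [pow_zero, pow_zero]; rfl
  | succ n ih =>
    rw [pow_succ, ih]
    apply B.ext
    · simp [pow_succ]
    · simp
    · simp
    · simp

lemma smul_C {p : ℕ} [CharP F p] (hlam : Function.Surjective lam) (c : C) : p • c = 0 := by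
  obtain ⟨f, rfl⟩ := hlam c
  rw [← map_nsmul, nsmul_eq_mul, CharP.cast_eq_zero, zero_mul, map_zero]

lemma B.exp {p : ℕ} [CharP F p] (hlam : Function.Surjective lam) {u : B q lam} (hu : u.t = 1) :
    u ^ (p ^ 2) = 1 := by
  obtain ⟨h1, h2, h3⟩ := B.pow_P hu p
  rw [nsmul_eq_mul, CharP.cast_eq_zero, zero_mul] at h2 h3
  have h4 : u ^ p = ⟨1, 0, 0, (u ^ p).c⟩ := B.ext h1 h2 h3 rfl
  rw [pow_two, pow_mul, h4, B.pow_Z, smul_C hlam]
  rfl

lemma B.gen (hlam : Function.Surjective lam) {om : T q F} (hom : om ≠ 1) :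
    Kq q (⊤ : Subgroup (B q lam)) = ⊤ := by
  have hchi : chi om - 1 ≠ 0 := by
    intro h
    apply hom
    apply chi_inj
    rw [map_one]
    exact sub_eq_zero.1 h
  rw [eq_top_iff]
  have hnor : ∀ g x : B q lam, x ∈ Kq q (⊤ : Subgroup (B q lam)) →
      g * x * g⁻¹ ∈ Kq q (⊤ : Subgroup (B q lam)) := by
    intro g x hx
    exact Kq_conj q (fun s _ => Subgroup.mem_top _) hx
  -- the torus
  have hT : ∀ t : T q F, (⟨t, 0, 0, 0⟩ : B q lam) ∈ Kq q (⊤ : Subgroup (B q lam)) := by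
    intro t
    apply Subgroup.subset_closure
    refine ⟨Subgroup.mem_top _, 1, ?_⟩
    rw [pow_one, B.pow_T, t_pow]
    rfl
  have hA : ∀ a : F, (⟨1, a, 0, 0⟩ : B q lam) ∈ Kq q (⊤ : Subgroup (B q lam)) := by
    intro a
    obtain ⟨a', ha'⟩ : ∃ a' : F, (chi om - 1) * a' = a :=
      ⟨(chi om - 1)⁻¹ * a, by rw [← mul_assoc, mul_inv_cancel₀ hchi, one_mul]⟩
    have h0 := chi_inv om
    have h1 : (⟨1, a, 0, 0⟩ : B q lam) = ⟨om, 0, 0, 0⟩ *
        (⟨1, a', 0, 0⟩ * (⟨om, 0, 0, 0⟩ : B q lam)⁻¹ * (⟨1, a', 0, 0⟩ : B q lam)⁻¹) := by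
      apply B.ext
      · simp
      · simp only [B_mul_a, B_mul_t, B_inv_a, B_inv_t, map_one, one_mul, inv_one, mul_zero,
          neg_zero, add_zero, zero_add]
        linear_combination (-1 : F) * ha' + a' * h0
      · simp
      · simp
    rw [h1]
    exact Subgroup.mul_mem _ (hT om) (hnor _ _ (Subgroup.inv_mem _ (hT om)))
  have hB : ∀ b : F, (⟨1, 0, b, 0⟩ : B q lam) ∈ Kq q (⊤ : Subgroup (B q lam)) := by
    intro b
    obtain ⟨b', hb'⟩ : ∃ b' : F, (chi om - 1) * b' = b :=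
      ⟨(chi om - 1)⁻¹ * b, by rw [← mul_assoc, mul_inv_cancel₀ hchi, one_mul]⟩
    have h0 := chi_inv om
    have h1 : (⟨1, 0, b, 0⟩ : B q lam) = ⟨om⁻¹, 0, 0, 0⟩ *
        (⟨1, 0, b', 0⟩ * (⟨om⁻¹, 0, 0, 0⟩ : B q lam)⁻¹ * (⟨1, 0, b', 0⟩ : B q lam)⁻¹) := by
      apply B.ext
      · simp
      · simp
      · simp only [B_mul_b, B_mul_t, B_inv_b, B_inv_t, map_one, one_mul, inv_one, mul_zero,
          neg_zero, add_zero, zero_add, inv_inv, mul_one]
        linear_combination (-1 : F) * hb' + b' * h0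
      · simp
    rw [h1]
    exact Subgroup.mul_mem _ (hT _) (hnor _ _ (Subgroup.inv_mem _ (hT _)))
  have hC : ∀ c : C, (⟨1, 0, 0, c⟩ : B q lam) ∈ Kq q (⊤ : Subgroup (B q lam)) := by
    intro c
    obtain ⟨b, rfl⟩ := hlam c
    have h1 : (⟨1, 0, 0, lam b⟩ : B q lam) = ⁅(⟨1, 1, 0, 0⟩ : B q lam), ⟨1, 0, b, 0⟩⁆ := by
      rw [B.comm_P rfl rfl]
      simp
    rw [h1]
    exact comm_mem (hA 1) (hB b)
  intro x _
  have h1 : x = ⟨1, 0, 0, x.c⟩ * (⟨1, 0, x.b, 0⟩ * (⟨1, x.a, 0, 0⟩ * ⟨x.t, 0, 0, 0⟩)) := by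
    apply B.ext <;> simp
  rw [h1]
  exact Subgroup.mul_mem _ (hC _) (Subgroup.mul_mem _ (hB _) (Subgroup.mul_mem _ (hA _) (hT _)))

lemma B.central_of (hC : Nontrivial C) (hlam : Function.Surjective lam) {v : B q lam}
    (h : ∀ u ∈ B.P q lam, u * v = v * u) (hv : v ∈ B.P q lam) : v = ⟨1, 0, 0, v.c⟩ := by
  obtain ⟨c, hc⟩ := exists_ne (0 : C)
  obtain ⟨f, hf⟩ := hlam c
  have key : ∀ a b : F, lam (a * v.b) - lam (v.a * b) = 0 := by
    intro a b
    have h1 := h ⟨1, a, b, 0⟩ rfl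
    rw [← comm_eq_one_iff, B.comm_P rfl hv] at h1
    exact congrArg B.c h1
  apply B.ext
  · exact hv
  · by_contra hne
    have hne' : v.a ≠ 0 := hne
    have := key 0 (v.a⁻¹ * f)
    rw [← mul_assoc, mul_inv_cancel₀ hne', one_mul, hf, zero_mul, map_zero, zero_sub,
      neg_eq_zero] at this
    exact hc this
  · by_contra hne
    have hne' : v.b ≠ 0 := hne
    have := key (f * v.b⁻¹) 0
    rw [mul_assoc, inv_mul_cancel₀ hne', mul_one, hf, mul_zero, map_zero, sub_zero] at this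
    exact hc this
  · rfl

lemma B.Br_eq' (hlam : Function.Surjective lam) {v : B q lam}
    (h : ∃ u ∈ B.P q lam, u * v ≠ v * u) (hv : v ∈ B.P q lam) :
    Br (B.P q lam) v = Set.range (fun c : C => (⟨1, 0, 0, c⟩ : B q lam)) := by
  ext w
  constructor
  · rintro ⟨u, hu, rfl⟩
    rw [B.comm_P hv hu]
    exact ⟨_, rfl⟩
  · rintro ⟨c, rfl⟩
    obtain ⟨f, hf⟩ := hlam c
    by_cases ha : v.a = 0
    · by_cases hb : v.b = 0
      · exfalso
        obtain ⟨u, hu, huv⟩ := h
        apply huv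
        have : v = ⟨1, 0, 0, v.c⟩ := B.ext hv ha hb rfl
        rw [this]
        exact B.cen _ _
      · refine ⟨⟨1, -(f * v.b⁻¹), 0, 0⟩, rfl, ?_⟩
        rw [B.comm_P hv rfl]
        apply B.ext
        · rfl
        · rfl
        · rfl
        · simp [mul_assoc, inv_mul_cancel₀ hb, hf]
    · refine ⟨⟨1, 0, v.a⁻¹ * f, 0⟩, rfl, ?_⟩
      rw [B.comm_P hv rfl]
      apply B.ext
      · rfl
      · rfl
      · rfl
      · have : v.a * (v.a⁻¹ * f) = f := by rw [← mul_assoc, mul_inv_cancel₀ ha, one_mul]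
        simp [this, hf]

lemma B.Br_card [Finite C] (hlam : Function.Surjective lam) {v : B q lam}
    (h : ∃ u ∈ B.P q lam, u * v ≠ v * u) (hv : v ∈ B.P q lam) :
    (Br (B.P q lam) v).ncard = Nat.card C := by
  rw [B.Br_eq' hlam h hv, ← Set.image_univ, Set.ncard_image_of_injective]
  · exact Set.ncard_univ C
  · intro x y hxy
    exact congrArg B.c hxy

variable {p : ℕ} [CharP F p]

lemma B.base [Finite F] [Finite C] (hlam : Function.Surjective lam) {om : T q F} (hom : om ≠ 1) :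
    Base p q (Kq q (⊤ : Subgroup (B q lam))) (B.P q lam) := by
  refine { fin := inferInstance, le := ?_, nrm := ?_, pP := ?_, qK := ?_, gen := Kq_gen q _ }
  · rw [B.gen hlam hom]; exact le_top
  · intro k _ u hu
    exact (inferInstance : (B.proj (q := q) (lam := lam)).ker.Normal).conj_mem u hu k
  · intro u hu
    exact ⟨2, B.exp hlam hu⟩
  · intro k _
    refine ⟨1, ?_⟩
    change B.proj (k ^ q ^ 1) = 1
    rw [map_pow, pow_one]
    exact t_pow _

theorem B.core [Finite F] [Finite C] (hC : Nontrivial C) (hlam : Function.Surjective lam)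
    {om : T q F} (hom : om ≠ 1) {m : ℕ} (hm : Nat.card C = p ^ m) :
    Core p q m (Kq q (⊤ : Subgroup (B q lam))) (B.P q lam) := by
  refine { toBase := B.base hlam hom, a1 := ?_, a2 := ?_, b := ?_, c := ?_, d := ?_ }
  · intro u hu v hv k _
    rw [B.comm_P hu hv]
    exact B.cen _ _
  · intro z hz hc k _
    rw [B.central_of hC hlam hc hz]
    exact B.cen _ _
  · intro v hv h
    rw [B.Br_card hlam h hv, hm]
  · intro v hv
    apply Subgroup.subset_closure
    refine ⟨hv, ?_⟩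
    by_cases h : ∀ u ∈ B.P q lam, u * v = v * u
    · exact Or.inl h
    · right
      push Not at h
      rw [B.Br_card hlam h hv, hm]
  · intro u hu v hv _ _
    by_cases h : ∀ x ∈ B.P q lam, x * u = u * x
    · right; exact (h v hv).symm
    · by_cases h' : ∀ x ∈ B.P q lam, x * v = v * x
      · right; exact h' u hu
      · left
        push Not at h h'
        rw [B.Br_eq' hlam h hu, B.Br_eq' hlam h' hv]

/-- the radical needed in the definition of the class -/
lemma B.rad (hlam : Function.Surjective lam) :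
    (∀ k ∈ (⊤ : Subgroup (B q lam)), ∀ u ∈ B.P q lam, k * u * k⁻¹ ∈ B.P q lam) ∧
    (∀ u ∈ B.P q lam, ∃ n, u ^ (p ^ n) = 1) ∧
    (∀ k ∈ (⊤ : Subgroup (B q lam)), ∃ n, k ^ (q ^ n) ∈ B.P q lam) := by
  refine ⟨?_, ?_, ?_⟩
  · intro k _ u hu
    exact (inferInstance : (B.proj (q := q) (lam := lam)).ker.Normal).conj_mem u hu k
  · intro u hu
    exact ⟨2, B.exp hlam hu⟩
  · intro k _
    refine ⟨1, ?_⟩
    change B.proj (k ^ q ^ 1) = 1
    rw [map_pow, pow_one]
    exact t_pow _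

theorem B.cls [Finite F] [Finite C] (hC : Nontrivial C) (hlam : Function.Surjective lam)
    {om : T q F} (hom : om ≠ 1) {m : ℕ} (hm : Nat.card C = p ^ m) : Cls p q m (B q lam) :=
  ⟨inferInstance, ⟨B.P q lam, le_top, B.rad hlam⟩, ⟨B.P q lam, B.core hC hlam hom hm⟩⟩

theorem B.not_cls [hp : Fact p.Prime] [hq : Fact q.Prime] (hpq : Nat.Coprime p q) [Finite F]
    [Finite C] (hC : Nontrivial C) (hlam : Function.Surjective lam)
    {om : T q F} (hom : om ≠ 1) {m : ℕ} (hm : Nat.card C ≠ p ^ m) : ¬ Cls p q m (B q lam) := by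
  rintro ⟨_, _, ⟨P, hP⟩⟩
  have hPe : P = B.P q lam := by
    ext x
    constructor
    · intro hx
      obtain ⟨n, hn⟩ := hP.pP x hx
      exact (B.base (p := p) hlam hom).mem_of_p hpq (hP.le hx) hn
    · intro hx
      obtain ⟨n, hn⟩ := (B.base (p := p) hlam hom).pP x hx
      exact hP.mem_of_p hpq ((B.base (p := p) hlam hom).le hx) hn
  subst hPe
  have h1 : B.P q lam ≤ Subgroup.centralizer (B.P q lam : Set (B q lam)) := by
    refine hP.c.trans ?_
    rw [Subgroup.closure_le]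
    rintro v ⟨hv, hv2⟩
    rcases hv2 with hv2 | hv2
    · exact fun u hu => hv2 u hu
    · by_cases h : ∀ u ∈ B.P q lam, u * v = v * u
      · exact fun u hu => h u hu
      · push Not at h
        rw [B.Br_card hlam h hv] at hv2
        exact absurd hv2 hm
  have h2 : (⟨1, 1, 0, 0⟩ : B q lam) ∈ B.P q lam := rfl
  have h3 := B.central_of hC hlam (v := (⟨1, 1, 0, 0⟩ : B q lam)) (fun u hu => h1 h2 u hu) h2
  have h4 : (1 : F) = 0 := congrArg B.a h3
  exact one_ne_zero h4

/-- change of the centre -/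
def B.mapC {C' : Type} [AddCommGroup C'] (lam : F →+ C) (mu : C →+ C') :
    B q lam →* B q (mu.comp lam) where
  toFun x := ⟨x.t, x.a, x.b, mu x.c⟩
  map_one' := by
    apply B.ext
    · rfl
    · rfl
    · rfl
    · exact map_zero mu
  map_mul' x y := by
    apply B.ext
    · rfl
    · rfl
    · rfl
    · simp

lemma B.mapC_surj {C' : Type} [AddCommGroup C'] (lam : F →+ C) (mu : C →+ C')
    (h : Function.Surjective mu) : Function.Surjective (B.mapC (q := q) lam mu) := by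
  rintro ⟨t, a, b, c⟩
  obtain ⟨c', rfl⟩ := h c
  exact ⟨⟨t, a, b, c'⟩, rfl⟩

/-- the order of the group -/
lemma B.card (q : ℕ) (lam : F →+ C) :
    Nat.card (B q lam) = Nat.card (T q F) * Nat.card F * Nat.card F * Nat.card C := by
  have e : B q lam ≃ (T q F × F) × F × C :=
    { toFun := fun x => ((x.t, x.a), x.b, x.c)
      invFun := fun y => ⟨y.1.1, y.1.2, y.2.1, y.2.2⟩
      left_inv := fun _ => rfl
      right_inv := fun _ => rfl }
  rw [Nat.card_congr e, Nat.card_prod, Nat.card_prod, Nat.card_prod]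
  ring

end B

end Pool.Agent.H170.FC
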